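import Mathlib

set_option autoImplicit false

namespace Pool.Agent.H629R2.EZ

/-- one-sided calibration -/
noncomputable def Pg (L t : ℝ) : ℝ :=
  (1 + t / √(1 + t ^ 2) + (√(1 + (t / L) ^ 2) + t / L)) / L

noncomputable def Pgd (L t : ℝ) : ℝ :=
  (1 / √(1 + t ^ 2) ^ 3 + (1 + (t / L) / √(1 + (t / L) ^ 2)) / L) / L

theorem sq_pos' (z : ℝ) : 0 < √(1 + z ^ 2) := Real.sqrt_pos.2 (by positivity)

theorem sq_sq (z : ℝ) : √(1 + z ^ 2) ^ 2 = 1 + z ^ 2 := Real.sq_sqrt (by positivity)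

theorem one_le_sq (z : ℝ) : 1 ≤ √(1 + z ^ 2) := by
  rw [Real.one_le_sqrt]
  nlinarith [sq_nonneg z]

theorem abs_le_sq (z : ℝ) : |z| ≤ √(1 + z ^ 2) := by
  apply Real.abs_le_sqrt
  linarith

theorem sqrt_deriv (t : ℝ) : HasDerivAt (fun t : ℝ => √(1 + t ^ 2)) (t / √(1 + t ^ 2)) t := by
  have h1 : HasDerivAt (fun t : ℝ => 1 + t ^ 2) (2 * t) t := by
    simpa using ((hasDerivAt_id' t).pow 2).const_add (1:ℝ)
  have h2 := h1.sqrt (by positivity)
  convert h2 using 1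
  have := sq_pos' t
  field_simp

theorem quot_deriv (t : ℝ) :
    HasDerivAt (fun t : ℝ => t / √(1 + t ^ 2)) (1 / √(1 + t ^ 2) ^ 3) t := by
  have h := (hasDerivAt_id' t).div (sqrt_deriv t) (sq_pos' t).ne'
  have h1 := sq_pos' t
  have h2 := sq_sq t
  have e : (1 * √(1 + t ^ 2) - t * (t / √(1 + t ^ 2))) / √(1 + t ^ 2) ^ 2 =
      1 / √(1 + t ^ 2) ^ 3 := by
    have e1 : 1 * √(1 + t ^ 2) - t * (t / √(1 + t ^ 2)) = 1 / √(1 + t ^ 2) := by
      rw [eq_div_iff h1.ne']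
      have : (1 * √(1 + t ^ 2) - t * (t / √(1 + t ^ 2))) * √(1 + t ^ 2) =
          √(1 + t ^ 2) ^ 2 - t ^ 2 := by
        have h3 : t * (t / √(1 + t ^ 2)) * √(1 + t ^ 2) = t ^ 2 := by
          rw [mul_assoc, div_mul_cancel₀ _ h1.ne']; ring
        rw [sub_mul, h3]; ring
      rw [this, h2]; ring
    rw [e1, div_div]
    congr 1
    ring
  rw [← e]
  exact h

theorem Pg_deriv (L : ℝ) (hL : 0 < L) (t : ℝ) : HasDerivAt (Pg L) (Pgd L t) t := by
  have h1 := (quot_deriv t).const_add (1:ℝ)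
  have h0 : HasDerivAt (fun t : ℝ => t / L) (1 / L) t := (hasDerivAt_id' t).div_const L
  have h2 : HasDerivAt (fun t : ℝ => √(1 + (t / L) ^ 2)) ((t / L) / √(1 + (t / L) ^ 2) * (1 / L)) t :=
    HasDerivAt.comp (h₂ := fun t : ℝ => √(1 + t ^ 2)) (h := fun t : ℝ => t / L) t
      (sqrt_deriv (t / L)) h0
  have h3 : HasDerivAt (Pg L) _ t := (h1.add (h2.add h0)).div_const L
  have e : Pgd L t = (1 / √(1 + t ^ 2) ^ 3 +
      ((t / L) / √(1 + (t / L) ^ 2) * (1 / L) + 1 / L)) / L := by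
    unfold Pgd
    ring
  rw [e]
  exact h3

theorem Pgd_cont (L : ℝ) : Continuous (Pgd L) := by
  unfold Pgd
  have h1 : Continuous (fun t : ℝ => 1 / √(1 + t ^ 2) ^ 3) :=
    continuous_const.div (by fun_prop) (fun t => by have := sq_pos' t; positivity)
  have h2 : Continuous (fun t : ℝ => (t / L) / √(1 + (t / L) ^ 2)) :=
    (by fun_prop : Continuous fun t : ℝ => t / L).div (by fun_prop)
      (fun t => (sq_pos' (t / L)).ne')
  exact (h1.add ((continuous_const.add h2).div_const L)).div_const L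

/-- `σ z = 1 + z / √(1+z²)` is positive. -/
theorem sig_nonneg (z : ℝ) : 0 ≤ 1 + z / √(1 + z ^ 2) := by
  have h1 := sq_pos' z
  have h2 := neg_abs_le z
  have h3 := abs_le_sq z
  have : -1 ≤ z / √(1 + z ^ 2) := by
    rw [le_div_iff₀ h1]; linarith
  linarith

theorem sig_le (z : ℝ) : 1 + z / √(1 + z ^ 2) ≤ 2 := by
  have h1 := sq_pos' z
  have h3 := (le_abs_self z).trans (abs_le_sq z)
  have : z / √(1 + z ^ 2) ≤ 1 := by
    rw [div_le_iff₀ h1]; linarith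
  linarith

theorem Pgd_nonneg (L : ℝ) (hL : 0 < L) (t : ℝ) : 0 ≤ Pgd L t := by
  unfold Pgd
  have h1 := sig_nonneg (t / L)
  have h2 := sq_pos' t
  positivity

theorem Pgd_lower (L T : ℝ) (hL : 0 < L) (t : ℝ) (ht : |t| ≤ T) :
    1 / (L * (1 + T ^ 2) ^ 2) ≤ Pgd L t := by
  unfold Pgd
  have h1 : t ^ 2 ≤ T ^ 2 := by
    rw [← sq_abs t]
    exact pow_le_pow_left₀ (abs_nonneg _) ht 2
  have h2 := sq_pos' t
  have h3 := one_le_sq t
  have h4 : √(1 + t ^ 2) ^ 3 ≤ (1 + T ^ 2) ^ 2 := by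
    calc √(1 + t ^ 2) ^ 3 ≤ √(1 + t ^ 2) ^ 4 := pow_le_pow_right₀ h3 (by norm_num)
      _ = (√(1 + t ^ 2) ^ 2) ^ 2 := by ring
      _ = (1 + t ^ 2) ^ 2 := by rw [sq_sq]
      _ ≤ (1 + T ^ 2) ^ 2 := pow_le_pow_left₀ (by positivity) (by linarith) 2
  have h5 : 1 / (1 + T ^ 2) ^ 2 ≤ 1 / √(1 + t ^ 2) ^ 3 :=
    one_div_le_one_div_of_le (by positivity) h4
  have h6 : 1 / (L * (1 + T ^ 2) ^ 2) = 1 / (1 + T ^ 2) ^ 2 / L := by
    field_simp
  rw [h6]
  have h7 := sig_nonneg (t / L)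
  apply div_le_div_of_nonneg_right _ hL.le
  have : 0 ≤ (1 + t / L / √(1 + (t / L) ^ 2)) / L := by positivity
  linarith

/-- comparison of `σ t` with `σ (t / L)` for `L ≥ 1`. -/
theorem sig_comp (L t : ℝ) (hL : 1 ≤ L) :
    1 + t / √(1 + t ^ 2) ≤ 2 * (1 + (t / L) / √(1 + (t / L) ^ 2)) := by
  have hL0 : 0 < L := by linarith
  rcases le_or_gt 0 t with ht | ht
  · have h1 := sig_le t
    have h2 : 0 ≤ (t / L) / √(1 + (t / L) ^ 2) := by positivity
    linarith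
  · have h3 := sig_nonneg (t / L)
    have hs : 0 < -t := by linarith
    have a1 := sq_pos' t
    have a2 := sq_pos' (t / L)
    have key : t / √(1 + t ^ 2) ≤ (t / L) / √(1 + (t / L) ^ 2) := by
      rw [div_le_div_iff₀ a1 a2, div_mul_eq_mul_div, le_div_iff₀ hL0]
      have h5 : √(1 + t ^ 2) ≤ √(1 + (t / L) ^ 2) * L := by
        apply Real.sqrt_le_iff.2
        constructor
        · positivity
        · rw [mul_pow, sq_sq]
          have : (1 + (t / L) ^ 2) * L ^ 2 = L ^ 2 + t ^ 2 := by field_simp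
          rw [this]
          nlinarith
      nlinarith
    linarith

theorem Pg_sq (L : ℝ) (hL : 1 ≤ L) (t : ℝ) (ht : t ≤ L) : Pg L t ^ 2 ≤ 24 * Pgd L t := by
  have hL0 : 0 < L := by linarith
  set z := t / L with hz
  have hz1 : z ≤ 1 := by rw [hz, div_le_one hL0]; exact ht
  set s := √(1 + z ^ 2) with hs
  have hs0 : 0 < s := sq_pos' z
  have hs2 : s ^ 2 = 1 + z ^ 2 := sq_sq z
  have hs1 : 1 ≤ s := one_le_sq z
  have hsz : |z| ≤ s := abs_le_sq z
  have c1 := sig_comp L t hL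
  have c2 := sig_nonneg t
  rw [← hz, ← hs] at c1
  set A := 1 + t / √(1 + t ^ 2) with hA
  set w := s + z with hw
  have hw0 : 0 ≤ w := by rw [hw]; linarith [neg_abs_le z]
  have hsig : 1 + z / s = w / s := by rw [hw]; field_simp
  have hw' : w / s ≤ 2 := by rw [← hsig]; exact sig_le z
  have hw'0 : 0 ≤ w / s := by positivity
  -- w ^ 2 ≤ 4 * (w / s)
  have h1 : w ^ 2 ≤ 4 * (w / s) := by
    have : w * s ≤ 4 := by
      rcases le_or_gt 0 z with h | h
      · have e1 : s ≤ 1.5 := by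
          nlinarith
        rw [hw]
        nlinarith
      · have e1 : w * s = s ^ 2 + z * s := by rw [hw]; ring
        rw [e1, hs2]
        have : z * s ≤ z * |z| := by
          nlinarith
        rw [abs_of_neg h] at this
        nlinarith
    rw [mul_div_assoc', le_div_iff₀ hs0]
    nlinarith
  have h2 : (A + w) ^ 2 ≤ 24 * (w / s) := by
    rw [hsig] at c1
    have : (A + w) ^ 2 ≤ 2 * A ^ 2 + 2 * w ^ 2 := by nlinarith [sq_nonneg (A - w)]
    have h3 : A ^ 2 ≤ 8 * (w / s) := by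
      have : A ^ 2 ≤ (2 * (w / s)) ^ 2 := pow_le_pow_left₀ c2 c1 2
      nlinarith
    linarith
  have h3 : Pg L t = (A + w) / L := by rw [hA, hw, hs, hz]; rfl
  have h4 : (w / s) / L / L ≤ Pgd L t := by
    unfold Pgd
    rw [← hz, ← hs, hsig]
    apply div_le_div_of_nonneg_right _ hL0.le
    have := sq_pos' t
    have : 0 ≤ 1 / √(1 + t ^ 2) ^ 3 := by positivity
    linarith
  rw [h3, div_pow]
  have h5 : (A + w) ^ 2 / L ^ 2 ≤ 24 * (w / s) / L ^ 2 :=
    div_le_div_of_nonneg_right h2 (by positivity)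
  have h6 : 24 * (w / s) / L ^ 2 = 24 * ((w / s) / L / L) := by
    field_simp
  linarith

end Pool.Agent.H629R2.EZ
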